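import Mathlib
import Pool.Agent.V11102.Net.Pel
import Pool.Agent.V11102.Net.Geom

/-!
The space of Lipschitz functions over a net in a normed space is isomorphic to its `ℓ∞`-sum.
-/

set_option autoImplicit false

namespace Pool.Agent.Results.MP_1d1573_an.LipNetLinftySum

open scoped ENNReal
open Filter Topology

/-- A Lipschitz function on `M` that vanishes at the base point `o`. -/
@[ext] structure LipSp (M : Type*) [MetricSpace M] (o : M) where
  /-- the function -/
  toFun : M → ℝ
  base : toFun o = 0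
  lip : ∃ K : ℝ, ∀ x y, |toFun x - toFun y| ≤ K * dist x y

/-- The best Lipschitz constant of `f`: the supremum of `|f x - f y| / d(x, y)`. -/
noncomputable def lipNorm {M : Type*} [MetricSpace M] (f : M → ℝ) : ℝ :=
  ⨆ p : M × M, |f p.1 - f p.2| / dist p.1 p.2

section
variable {M : Type*} [MetricSpace M] {o : M}

theorem bdd_of {f : M → ℝ} {K : ℝ} (h : ∀ x y, |f x - f y| ≤ K * dist x y) :
    BddAbove (Set.range fun p : M × M => |f p.1 - f p.2| / dist p.1 p.2) := by
  refine ⟨max K 0, ?_⟩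
  rintro _ ⟨p, rfl⟩
  show |f p.1 - f p.2| / dist p.1 p.2 ≤ max K 0
  rcases eq_or_ne p.1 p.2 with hp | hp
  · rw [hp]; simp
  · have hd : 0 < dist p.1 p.2 := dist_pos.mpr hp
    exact (div_le_iff₀ hd).mpr ((h _ _).trans
      (mul_le_mul_of_nonneg_right (le_max_left _ _) hd.le))

theorem lipNorm_nonneg (f : M → ℝ) : 0 ≤ lipNorm f := by
  unfold lipNorm
  apply Real.iSup_nonneg
  intro p
  positivity

theorem le_lipNorm {f : M → ℝ} (hf : ∃ K : ℝ, ∀ x y, |f x - f y| ≤ K * dist x y) (x y : M) :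
    |f x - f y| ≤ lipNorm f * dist x y := by
  obtain ⟨K, hK⟩ := hf
  rcases eq_or_ne x y with hp | hp
  · rw [hp]; simp
  · have hd : 0 < dist x y := dist_pos.mpr hp
    have h1 : |f x - f y| / dist x y ≤ lipNorm f :=
      le_ciSup (f := fun p : M × M => |f p.1 - f p.2| / dist p.1 p.2) (bdd_of hK) (x, y)
    exact (div_le_iff₀ hd).mp h1

theorem lipNorm_le {f : M → ℝ} {K : ℝ} (hK0 : 0 ≤ K) (hK : ∀ x y, |f x - f y| ≤ K * dist x y) :
    lipNorm f ≤ K := by
  unfold lipNorm
  apply Real.iSup_le _ hK0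
  intro p
  rcases eq_or_ne p.1 p.2 with hp | hp
  · rw [hp]; simpa using hK0
  · have hd : 0 < dist p.1 p.2 := dist_pos.mpr hp
    exact (div_le_iff₀ hd).mpr (hK _ _)

instance : Zero (LipSp M o) := ⟨⟨fun _ => 0, rfl, 0, fun x y => by simp⟩⟩

instance : Add (LipSp M o) := ⟨fun f g => ⟨fun x => f.toFun x + g.toFun x, by
  rw [f.base, g.base, add_zero], by
  obtain ⟨K, hK⟩ := f.lip
  obtain ⟨L, hL⟩ := g.lip
  refine ⟨K + L, fun x y => ?_⟩
  have h1 := hK x y
  have h2 := hL x y
  have h3 : f.toFun x + g.toFun x - (f.toFun y + g.toFun y) =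
    (f.toFun x - f.toFun y) + (g.toFun x - g.toFun y) := by ring
  rw [h3, add_mul]
  exact (abs_add_le _ _).trans (add_le_add h1 h2)⟩⟩

instance : SMul ℝ (LipSp M o) := ⟨fun c f => ⟨fun x => c * f.toFun x, by
  rw [f.base, mul_zero], by
  obtain ⟨K, hK⟩ := f.lip
  refine ⟨|c| * K, fun x y => ?_⟩
  have h3 : c * f.toFun x - c * f.toFun y = c * (f.toFun x - f.toFun y) := by ring
  rw [h3, abs_mul, mul_assoc]
  exact mul_le_mul_of_nonneg_left (hK x y) (abs_nonneg c)⟩⟩

instance : Neg (LipSp M o) := ⟨fun f => ⟨fun x => - f.toFun x, by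
  rw [f.base, neg_zero], by
  obtain ⟨K, hK⟩ := f.lip
  refine ⟨K, fun x y => ?_⟩
  have h3 : - f.toFun x - - f.toFun y = - (f.toFun x - f.toFun y) := by ring
  rw [h3, abs_neg]
  exact hK x y⟩⟩

theorem zero_apply (x : M) : (0 : LipSp M o).toFun x = 0 := rfl

theorem add_apply (f g : LipSp M o) (x : M) : (f + g).toFun x = f.toFun x + g.toFun x := rfl

theorem neg_apply (f : LipSp M o) (x : M) : (-f).toFun x = - f.toFun x := rfl

theorem smul_apply (c : ℝ) (f : LipSp M o) (x : M) : (c • f).toFun x = c * f.toFun x := rfl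

/-- The pointwise operations make the Lipschitz functions an additive commutative group. -/
instance : AddCommGroup (LipSp M o) where
  add_assoc f g h := by ext x; simp only [add_apply]; ring
  zero_add f := by ext x; simp only [add_apply, zero_apply]; ring
  add_zero f := by ext x; simp only [add_apply, zero_apply]; ring
  add_comm f g := by ext x; simp only [add_apply]; ring
  neg_add_cancel f := by ext x; simp only [add_apply, neg_apply, zero_apply]; ring
  nsmul := nsmulRec
  zsmul := zsmulRec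

/-- The pointwise operations make the Lipschitz functions a real vector space. -/
instance : Module ℝ (LipSp M o) where
  one_smul f := by ext x; simp only [smul_apply]; ring
  mul_smul a b f := by ext x; simp only [smul_apply]; ring
  smul_zero a := by ext x; simp only [smul_apply, zero_apply]; ring
  smul_add a f g := by ext x; simp only [smul_apply, add_apply]; ring
  add_smul a b f := by ext x; simp only [smul_apply, add_apply]; ring
  zero_smul f := by ext x; simp only [smul_apply, zero_apply]; ring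

/-- The norm is the best Lipschitz constant. -/
noncomputable instance : Norm (LipSp M o) := ⟨fun f => lipNorm f.toFun⟩

theorem norm_def (f : LipSp M o) : ‖f‖ = lipNorm f.toFun := rfl

theorem norm_bound (f : LipSp M o) (x y : M) :
    |f.toFun x - f.toFun y| ≤ ‖f‖ * dist x y :=
  le_lipNorm f.lip x y

theorem norm_le_of (f : LipSp M o) {K : ℝ} (hK0 : 0 ≤ K)
    (hK : ∀ x y, |f.toFun x - f.toFun y| ≤ K * dist x y) : ‖f‖ ≤ K :=
  lipNorm_le hK0 hK

theorem core : NormedSpace.Core ℝ (LipSp M o) where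
  norm_nonneg f := lipNorm_nonneg _
  norm_smul c f := by
    apply le_antisymm
    · apply norm_le_of
      · exact mul_nonneg (norm_nonneg c) (lipNorm_nonneg _)
      intro x y
      have h3 : (c • f).toFun x - (c • f).toFun y = c * (f.toFun x - f.toFun y) := by
        simp only [smul_apply]; ring
      rw [h3, abs_mul, mul_assoc]
      exact mul_le_mul_of_nonneg_left (norm_bound f x y) (abs_nonneg c)
    · rcases eq_or_ne c 0 with hc | hc
      · rw [hc]; simp only [norm_zero, zero_mul]; exact lipNorm_nonneg _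
      have hc' : 0 < |c| := abs_pos.mpr hc
      have h1 : ‖f‖ ≤ |c|⁻¹ * ‖c • f‖ := by
        apply norm_le_of
        · exact mul_nonneg (inv_nonneg.mpr hc'.le) (lipNorm_nonneg _)
        intro x y
        have h2 := norm_bound (c • f) x y
        have h3 : (c • f).toFun x - (c • f).toFun y = c * (f.toFun x - f.toFun y) := by
          simp only [smul_apply]; ring
        rw [h3, abs_mul] at h2
        rw [mul_assoc, ← div_eq_inv_mul, le_div_iff₀ hc', mul_comm]
        exact h2
      calc ‖c‖ * ‖f‖ ≤ |c| * (|c|⁻¹ * ‖c • f‖) :=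
            mul_le_mul_of_nonneg_left h1 (abs_nonneg c)
        _ = ‖c • f‖ := by rw [← mul_assoc, mul_inv_cancel₀ hc'.ne', one_mul]
  norm_triangle f g := by
    apply norm_le_of
    · exact add_nonneg (lipNorm_nonneg _) (lipNorm_nonneg _)
    intro x y
    have h3 : (f + g).toFun x - (f + g).toFun y =
        (f.toFun x - f.toFun y) + (g.toFun x - g.toFun y) := by
      simp only [add_apply]; ring
    rw [h3, add_mul]
    exact (abs_add_le _ _).trans (add_le_add (norm_bound f x y) (norm_bound g x y))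
  norm_eq_zero_iff f := by
    constructor
    · intro h
      ext x
      have h1 := norm_bound f x o
      rw [h, zero_mul, f.base, sub_zero] at h1
      exact abs_eq_zero.mp (le_antisymm h1 (abs_nonneg _))
    · rintro rfl
      apply le_antisymm _ (lipNorm_nonneg _)
      apply norm_le_of _ le_rfl
      intro x y
      simp [zero_apply]

noncomputable instance : NormedAddCommGroup (LipSp M o) := NormedAddCommGroup.ofCore (core (M := M) (o := o))

noncomputable instance : NormedSpace ℝ (LipSp M o) := NormedSpace.ofCore (core (M := M) (o := o))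

end


/-- `N` is a net in `X`: it is uniformly discrete, and every point of `X` is at distance less than
a fixed constant from `N`. -/
def IsNet {X : Type*} [MetricSpace X] (N : Set X) : Prop :=
  (∃ ε : ℝ, 0 < ε ∧ ∀ x ∈ N, ∀ y ∈ N, x ≠ y → ε ≤ dist x y) ∧
    ∃ δ : ℝ, 0 < δ ∧ ∀ x : X, ∃ y ∈ N, dist x y < δ

/-! ### A Banach limit -/

/-- the limit along an ultrafilter -/
noncomputable def bl (f : ℕ → ℝ) : ℝ := lim (map f (hyperfilter ℕ : Filter ℕ))

theorem bl_tendsto {f : ℕ → ℝ} {C : ℝ} (h : ∀ n, |f n| ≤ C) :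
    Tendsto f (hyperfilter ℕ : Filter ℕ) (𝓝 (bl f)) := by
  have h1 : ((hyperfilter ℕ).map f : Filter ℝ) ≤ 𝓟 (Set.Icc (-C) C) := by
    rw [le_principal_iff]
    show f ⁻¹' Set.Icc (-C) C ∈ (hyperfilter ℕ : Filter ℕ)
    have h0 : f ⁻¹' Set.Icc (-C) C = Set.univ := Set.eq_univ_of_forall (fun n => abs_le.mp (h n))
    rw [h0]
    exact univ_mem
  obtain ⟨a, -, ha⟩ := isCompact_Icc.ultrafilter_le_nhds _ h1
  exact le_nhds_lim ⟨a, ha⟩

theorem bl_eq {f : ℕ → ℝ} {C a : ℝ} (h : ∀ n, |f n| ≤ C) (n0 : ℕ) (h2 : ∀ n ≥ n0, f n = a) :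
    bl f = a := by
  have h1 := bl_tendsto h
  have h3 : ∀ᶠ n in (hyperfilter ℕ : Filter ℕ), f n = a := by
    have h4 : ∀ᶠ n in atTop, f n = a := eventually_atTop.mpr ⟨n0, h2⟩
    have h5 : (hyperfilter ℕ : Filter ℕ) ≤ atTop := by
      rw [← Nat.cofinite_eq_atTop]; exact hyperfilter_le_cofinite
    exact h5 h4
  have h4 : Tendsto f (hyperfilter ℕ : Filter ℕ) (𝓝 a) :=
    tendsto_const_nhds.congr' (h3.mono (fun n hn => hn.symm))
  exact tendsto_nhds_unique h1 h4

theorem bl_add {f g : ℕ → ℝ} {C D : ℝ} (hf : ∀ n, |f n| ≤ C) (hg : ∀ n, |g n| ≤ D) :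
    bl (fun n => f n + g n) = bl f + bl g := by
  have h1 := (bl_tendsto hf).add (bl_tendsto hg)
  have h2 : ∀ n, |f n + g n| ≤ C + D := fun n => (abs_add_le _ _).trans (add_le_add (hf n) (hg n))
  exact tendsto_nhds_unique (bl_tendsto h2) h1

theorem bl_smul {f : ℕ → ℝ} {C : ℝ} (c : ℝ) (hf : ∀ n, |f n| ≤ C) :
    bl (fun n => c * f n) = c * bl f := by
  have h1 := (bl_tendsto hf).const_mul c
  have h2 : ∀ n, |c * f n| ≤ |c| * C := fun n => by
    rw [abs_mul]; exact mul_le_mul_of_nonneg_left (hf n) (abs_nonneg c)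
  exact tendsto_nhds_unique (bl_tendsto h2) h1

theorem bl_sub_le {f g : ℕ → ℝ} {C D E : ℝ} (hf : ∀ n, |f n| ≤ C) (hg : ∀ n, |g n| ≤ D)
    (h : ∀ n, |f n - g n| ≤ E) : |bl f - bl g| ≤ E := by
  have h1 := ((bl_tendsto hf).sub (bl_tendsto hg)).abs
  exact le_of_tendsto h1 (Filter.Eventually.of_forall h)

open Pool.Agent.V11102.Net (LI coord_le mkLI mkLI_apply norm_mkLI_le geom)

/-- If `N` is a net in a real normed space `X` (complete or not, separable or not), then
`Lip₀(N)` is linearly isomorphic to the `ℓ∞`-sum of countably many copies of itself. -/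
theorem result {X : Type*} [NormedAddCommGroup X] [NormedSpace ℝ X] (N : Set X) (hN : IsNet N)
    (o : N) : Nonempty (LipSp N o ≃L[ℝ] lp (fun _ : ℕ => LipSp N o) ∞) := by
  classical
  rcases subsingleton_or_nontrivial X with hX | hX
  · -- the trivial case
    have hz : ∀ f : LipSp N o, f = 0 := by
      intro f
      ext x
      have : x = o := Subsingleton.elim _ _
      rw [this]
      exact f.base
    apply Pool.Agent.V11102.Net.main 0 0
    intro x
    apply lp.ext
    funext i
    rw [hz (x i)]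
    rfl
  obtain ⟨⟨ε, hε, hsep⟩, δ, hδ, hden⟩ := hN
  obtain ⟨L, hL, hg⟩ := geom hε hδ hsep hden o
  -- radii
  let rr : ℕ → ℝ := fun i => δ * ((Nat.unpair i).1 + 1)
  have hrr : ∀ i, δ ≤ rr i := by
    intro i
    have : (0 : ℝ) ≤ (Nat.unpair i).1 := Nat.cast_nonneg _
    show δ ≤ δ * ((Nat.unpair i).1 + 1)
    nlinarith
  have hg2 : ∀ (i : ℕ) (T : {t : ℝ // 0 ≤ t}), ∃ (φ ψ : N → N) (χ : N → ℝ)
      (T' : {t : ℝ // 0 ≤ t}), (T : ℝ) ≤ T' ∧ (∀ x y, dist (φ x) (φ y) ≤ L * dist x y) ∧
      (∀ x y, dist (ψ x) (ψ y) ≤ L * dist x y) ∧ (∀ y, dist (ψ y) o ≤ rr i) ∧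
      (∀ m, dist m o ≤ rr i → ψ (φ m) = m ∧ χ (φ m) = 1) ∧ (∀ y, |χ y| ≤ 1) ∧
      (∀ y y', |χ y - χ y'| * rr i ≤ dist y y') ∧
      (∀ y, χ y ≠ 0 → (T : ℝ) < dist y o ∧ dist y o ≤ T') := by
    intro i T
    obtain ⟨φ, ψ, χ, T', h1, h2⟩ := hg (rr i) (hrr i) T T.2
    exact ⟨φ, ψ, χ, ⟨T', T.2.trans h1⟩, h1, h2⟩
  choose φ' ψ' χ' T' h1 h2 h3 h4 h5 h6 h7 h8 using hg2
  let Ts : ℕ → {t : ℝ // 0 ≤ t} := fun i => Nat.rec ⟨0, le_rfl⟩ (fun i T => T' i T) i
  have hTs : ∀ i, Ts (i + 1) = T' i (Ts i) := fun i => rfl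
  have hTmono : ∀ i j, i ≤ j → (Ts i).1 ≤ (Ts j).1 := by
    intro i j hij
    induction hij with
    | refl => exact le_rfl
    | step _ ih => exact ih.trans (h1 _ _)
  let φ : ℕ → N → N := fun i => φ' i (Ts i)
  let ψ : ℕ → N → N := fun i => ψ' i (Ts i)
  let χ : ℕ → N → ℝ := fun i => χ' i (Ts i)
  have hφ : ∀ i x y, dist (φ i x) (φ i y) ≤ L * dist x y := fun i => h2 i (Ts i)
  have hψ : ∀ i x y, dist (ψ i x) (ψ i y) ≤ L * dist x y := fun i => h3 i (Ts i)
  have hψr : ∀ i y, dist (ψ i y) o ≤ rr i := fun i => h4 i (Ts i)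
  have hinv : ∀ i m, dist m o ≤ rr i → ψ i (φ i m) = m ∧ χ i (φ i m) = 1 := fun i => h5 i (Ts i)
  have hχ1 : ∀ i y, |χ i y| ≤ 1 := fun i => h6 i (Ts i)
  have hχr : ∀ i y y', |χ i y - χ i y'| * rr i ≤ dist y y' := fun i => h7 i (Ts i)
  have hχs : ∀ i y, χ i y ≠ 0 → (Ts i).1 < dist y o ∧ dist y o ≤ (Ts (i + 1)).1 :=
    fun i => h8 i (Ts i)
  clear_value φ ψ χ
  have huniq : ∀ y i j, χ i y ≠ 0 → χ j y ≠ 0 → i = j := by
    intro y i j hi hj
    have a1 := hχs i y hi
    have a2 := hχs j y hj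
    rcases lt_trichotomy i j with h | h | h
    · have := hTmono (i + 1) j h
      exact absurd (lt_of_lt_of_le a2.1 (a1.2.trans this)) (lt_irrefl _)
    · exact h
    · have := hTmono (j + 1) i h
      exact absurd (lt_of_lt_of_le a1.1 (a2.2.trans this)) (lt_irrefl _)
  have hidx : ∀ y, ∃ i, ∀ j, χ j y ≠ 0 → j = i := by
    intro y
    by_cases h : ∃ i, χ i y ≠ 0
    · obtain ⟨i, hi⟩ := h
      exact ⟨i, fun j hj => huniq y j i hj hi⟩
    · push Not at h
      exact ⟨0, fun j hj => absurd (h j) hj⟩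
  choose idx hidx using hidx
  have hχo : ∀ i, χ i o = 0 := by
    intro i
    by_contra h
    have := (hχs i o h).1
    rw [dist_self] at this
    exact absurd ((Ts i).2.trans_lt this) (lt_irrefl _)
  -- the extension operators
  let E : ℕ → (N → ℝ) → N → ℝ := fun i f y => f (ψ i y) * χ i y
  have hE0 : ∀ i f y, i ≠ idx y → E i f y = 0 := by
    intro i f y hi
    have h : χ i y = 0 := by
      by_contra h
      exact hi (hidx y i h)
    show f (ψ i y) * χ i y = 0
    rw [h, mul_zero]
  have hElip : ∀ i (f : LipSp N o) y y', |E i f.toFun y - E i f.toFun y'| ≤ (L + 1) * ‖f‖ * dist y y' := by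
    intro i f y y'
    have e1 : E i f.toFun y - E i f.toFun y' = (f.toFun (ψ i y) - f.toFun (ψ i y')) * χ i y +
        f.toFun (ψ i y') * (χ i y - χ i y') := by
      show f.toFun (ψ i y) * χ i y - f.toFun (ψ i y') * χ i y' = _
      ring
    rw [e1]
    refine (abs_add_le _ _).trans ?_
    rw [abs_mul, abs_mul]
    have e2 : |f.toFun (ψ i y) - f.toFun (ψ i y')| * |χ i y| ≤ ‖f‖ * (L * dist y y') * 1 := by
      apply mul_le_mul _ (hχ1 i y) (abs_nonneg _)
      · have := norm_nonneg f
        have := @dist_nonneg _ _ y y'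
        positivity
      · exact (norm_bound f _ _).trans (mul_le_mul_of_nonneg_left (hψ i y y') (norm_nonneg f))
    have e3 : |f.toFun (ψ i y')| ≤ ‖f‖ * rr i := by
      have := norm_bound f (ψ i y') o
      rw [f.base, sub_zero] at this
      exact this.trans (mul_le_mul_of_nonneg_left (hψr i y') (norm_nonneg f))
    have e4 : |f.toFun (ψ i y')| * |χ i y - χ i y'| ≤ ‖f‖ * (|χ i y - χ i y'| * rr i) := by
      have := mul_le_mul_of_nonneg_right e3 (abs_nonneg (χ i y - χ i y'))
      linarith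
    have e5 : ‖f‖ * (|χ i y - χ i y'| * rr i) ≤ ‖f‖ * dist y y' :=
      mul_le_mul_of_nonneg_left (hχr i y y') (norm_nonneg f)
    linarith
  -- the operator `S`
  let kk : ℕ → ℕ := fun i => (Nat.unpair i).2
  let Sf : LI (LipSp N o) → N → ℝ := fun x y => E (idx y) (x (kk (idx y))).toFun y
  have hSlip : ∀ (x : LI (LipSp N o)) y y', |Sf x y - Sf x y'| ≤
      (2 * (L + 1) * ‖x‖) * dist y y' := by
    intro x y y'
    have hb : ∀ i y y', |E i (x (kk i)).toFun y - E i (x (kk i)).toFun y'| ≤ (L + 1) * ‖x‖ * dist y y' := by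
      intro i y y'
      refine (hElip i (x (kk i)) y y').trans ?_
      apply mul_le_mul_of_nonneg_right _ dist_nonneg
      exact mul_le_mul_of_nonneg_left (coord_le x (kk i)) (by linarith)
    have hnn : 0 ≤ (L + 1) * ‖x‖ * dist y y' := by
      have := norm_nonneg x
      have := @dist_nonneg _ _ y y'
      positivity
    by_cases h : idx y = idx y'
    · show |E (idx y) (x (kk (idx y))).toFun y - E (idx y') (x (kk (idx y'))).toFun y'| ≤ _
      rw [← h]
      have := hb (idx y) y y'
      linarith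
    · show |E (idx y) (x (kk (idx y))).toFun y - E (idx y') (x (kk (idx y'))).toFun y'| ≤ _
      have e1 := hb (idx y) y y'
      have e2 := hb (idx y') y y'
      have e3 : E (idx y) (x (kk (idx y))).toFun y' = 0 := hE0 _ _ _ h
      have e4 : E (idx y') (x (kk (idx y'))).toFun y = 0 := hE0 _ _ _ (fun h' => h h'.symm)
      rw [e3, sub_zero] at e1
      rw [e4, zero_sub, abs_neg] at e2
      exact (abs_sub _ _).trans (by linarith)
  let S : LI (LipSp N o) →L[ℝ] LipSp N o := LinearMap.mkContinuous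
    { toFun := fun x => ⟨Sf x, by
        show (x (kk (idx o))).toFun (ψ (idx o) o) * χ (idx o) o = 0
        rw [hχo, mul_zero], _, hSlip x⟩
      map_add' := fun x y => by
        ext z
        show (x (kk (idx z)) + y (kk (idx z)) : LipSp N o).toFun (ψ (idx z) z) * χ (idx z) z =
          (x (kk (idx z))).toFun (ψ (idx z) z) * χ (idx z) z +
            (y (kk (idx z))).toFun (ψ (idx z) z) * χ (idx z) z
        rw [← add_mul]
        rfl
      map_smul' := fun c x => by
        ext z
        show (c * (x (kk (idx z))).toFun (ψ (idx z) z)) * χ (idx z) z =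
          c * ((x (kk (idx z))).toFun (ψ (idx z) z) * χ (idx z) z)
        rw [mul_assoc] } (2 * (L + 1)) (fun x =>
      norm_le_of _ (by have := norm_nonneg x; positivity) (hSlip x))
  have hS : ∀ (x : LI (LipSp N o)) z, (S x).toFun z = E (idx z) (x (kk (idx z))).toFun z :=
    fun x z => rfl
  -- the operator `R`
  let q : LipSp N o → ℕ → N → ℕ → ℝ := fun h k m n =>
    h.toFun (φ (Nat.pair n k) m) - h.toFun (φ (Nat.pair n k) o)
  have hq : ∀ h k m n, |q h k m n| ≤ ‖h‖ * (L * dist m o) := by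
    intro h k m n
    exact (norm_bound h _ _).trans (mul_le_mul_of_nonneg_left (hφ _ m o) (norm_nonneg h))
  have hq2 : ∀ h k m m' n, |q h k m n - q h k m' n| ≤ L * ‖h‖ * dist m m' := by
    intro h k m m' n
    have e1 : q h k m n - q h k m' n =
        h.toFun (φ (Nat.pair n k) m) - h.toFun (φ (Nat.pair n k) m') := by
      show (h.toFun (φ (Nat.pair n k) m) - h.toFun (φ (Nat.pair n k) o)) -
        (h.toFun (φ (Nat.pair n k) m') - h.toFun (φ (Nat.pair n k) o)) = _
      ring
    rw [e1]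
    have := (norm_bound h (φ (Nat.pair n k) m) (φ (Nat.pair n k) m')).trans
      (mul_le_mul_of_nonneg_left (hφ _ m m') (norm_nonneg h))
    linarith
  have hRlip : ∀ h k m m', |bl (q h k m) - bl (q h k m')| ≤ L * ‖h‖ * dist m m' :=
    fun h k m m' => bl_sub_le (hq h k m) (hq h k m') (hq2 h k m m')
  have hRo : ∀ h k, bl (q h k o) = 0 := by
    intro h k
    apply bl_eq (hq h k o) 0
    intro n _
    exact sub_self _
  let Rf : LipSp N o → ℕ → LipSp N o := fun h k => ⟨fun m => bl (q h k m), hRo h k, _, hRlip h k⟩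
  have hRb : ∀ h k, ‖Rf h k‖ ≤ L * ‖h‖ := fun h k =>
    norm_le_of _ (mul_nonneg hL (norm_nonneg h)) (hRlip h k)
  let R : LipSp N o →L[ℝ] LI (LipSp N o) := LinearMap.mkContinuous
    { toFun := fun h => mkLI (Rf h) _ (hRb h)
      map_add' := fun g h => by
        apply lp.ext
        funext k
        ext m
        show bl (q (g + h) k m) = bl (q g k m) + bl (q h k m)
        rw [← bl_add (hq g k m) (hq h k m)]
        congr 1
        funext n
        show (g.toFun _ + h.toFun _) - (g.toFun _ + h.toFun _) =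
          (g.toFun _ - g.toFun _) + (h.toFun _ - h.toFun _)
        ring
      map_smul' := fun c h => by
        apply lp.ext
        funext k
        ext m
        show bl (q (c • h) k m) = c * bl (q h k m)
        rw [← bl_smul c (hq h k m)]
        congr 1
        funext n
        show c * h.toFun _ - c * h.toFun _ = c * (h.toFun _ - h.toFun _)
        ring } L (fun h => norm_mkLI_le _ (mul_nonneg hL (norm_nonneg h)) (hRb h))
  have hR : ∀ h k m, (R h k).toFun m = bl (q h k m) := fun h k m => rfl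
  apply Pool.Agent.V11102.Net.main S R
  intro x
  apply lp.ext
  funext k
  ext m
  rw [hR]
  -- radii tend to infinity
  obtain ⟨n0, hn0⟩ := exists_nat_gt (dist m o / δ)
  apply bl_eq (hq (S x) k m) n0
  intro n hn
  have hrad : ∀ m' : N, dist m' o ≤ dist m o → dist m' o ≤ rr (Nat.pair n k) := by
    intro m' hm'
    show dist m' o ≤ δ * ((Nat.unpair (Nat.pair n k)).1 + 1)
    rw [Nat.unpair_pair]
    have e1 : dist m o / δ < n + 1 := by
      have : (n0 : ℝ) ≤ n := by exact_mod_cast hn
      linarith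
    rw [div_lt_iff₀ hδ] at e1
    have e2 : ((n, k).1 : ℝ) = n := rfl
    rw [e2]
    linarith
  have hval : ∀ m' : N, dist m' o ≤ dist m o →
      (S x).toFun (φ (Nat.pair n k) m') = (x k).toFun m' := by
    intro m' hm'
    obtain ⟨e1, e2⟩ := hinv (Nat.pair n k) m' (hrad m' hm')
    have e3 : Nat.pair n k = idx (φ (Nat.pair n k) m') :=
      hidx _ _ (by rw [e2]; exact one_ne_zero)
    rw [hS, ← e3]
    show (x (kk (Nat.pair n k))).toFun (ψ (Nat.pair n k) (φ (Nat.pair n k) m')) *
      χ (Nat.pair n k) (φ (Nat.pair n k) m') = _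
    rw [e1, e2, mul_one]
    show (x (Nat.unpair (Nat.pair n k)).2).toFun m' = _
    rw [Nat.unpair_pair]
  show (S x).toFun (φ (Nat.pair n k) m) - (S x).toFun (φ (Nat.pair n k) o) = _
  rw [hval m le_rfl, hval o (by rw [dist_self]; exact dist_nonneg), (x k).base, sub_zero]

end Pool.Agent.Results.MP_1d1573_an.LipNetLinftySum
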